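import Pool.Agent.Y743.LR.NX

/-!
# The Alternative Hypothesis cannot hold with a pattern of bounded discrepancy

Assume the Riemann hypothesis.  For every `C` there is `ε > 0` such that for all large `N` the
following holds for every real sequence `a` (for instance any sequence of positive integers and
half-integers) and all reals `b`, `x₀`.  If the discrepancy `∑_{j < n} (a_j - b) - x₀` of the pattern
has mean cube at most `C` over `n ≤ N`, then at least `ε N` of the spacings satisfy
`|d_n - a_n| ≥ ε`.

The Alternative Hypothesis says that `d_n - a_n → 0` for some sequence `a` of positive integers and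
half-integers.  So, even for density one sets of indices and along any sequence of `N`, this is
impossible for every pattern `a` of bounded discrepancy: periodic patterns, balanced words, Sturmian
and other quasiperiodic patterns with bounded remainders, random patterns obtained by moving the
points of a lattice by bounded amounts, and, more generally, all patterns whose discrepancy is
bounded in the mean of order three.

Idea of the proof.  Otherwise there are heights `T → ∞` near which the ordinates, at the scale of the
mean spacing, are obtained from a progression of mean spacing one by displacements bounded in `L³`.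
Then the number of zeros in a window of length `r` mean spacings differs from `r` by a quantity whose
mean square is bounded uniformly in `r`.  But this mean square, the number variance, is
`π⁻² log r + O(1)`.
-/

set_option autoImplicit false

open Filter

namespace Pool.Agent.Results.MP_f0209c_nt.BalancedPatterns

/-- multiplicity of `s` as a zero of the Riemann zeta function (order of vanishing at `s`) -/
noncomputable def zmult (s : ℂ) : ℕ := analyticOrderNatAt riemannZeta s

/-- the number of nontrivial zeros of `ζ` with ordinate in `(0, t]`, with multiplicity -/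
noncomputable def NZ (t : ℝ) : ℕ :=
  ∑ᶠ s ∈ {s : ℂ | riemannZeta s = 0 ∧ 0 < s.re ∧ s.re < 1 ∧ 0 < s.im ∧ s.im ≤ t}, zmult s

/-- for `n ≥ 1`: the `n`-th positive ordinate `γ n` of a nontrivial zero of `ζ`, the ordinates being
listed in nondecreasing order and repeated according to multiplicity -/
noncomputable def γ (n : ℕ) : ℝ := sInf {t : ℝ | n ≤ NZ t}

/-- the normalised spacings `d_n = γ_{n+1} log γ_{n+1} / 2π - γ_n log γ_n / 2π` -/
noncomputable def d (n : ℕ) : ℝ :=
  (γ (n + 1) * Real.log (γ (n + 1)) - γ n * Real.log (γ n)) / (2 * Real.pi)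

/-- **Theorem.** On the Riemann hypothesis, for every `C` there is `ε > 0` such that for all large
`N`, for every real sequence `a` and all reals `b`, `x₀` such that the mean over `n ≤ N` of
`|∑_{1 ≤ j < n} (a_j - b) - x₀|³` is at most `C`, at least `ε N` of the indices `n ≤ N` satisfy
`|d_n - a_n| ≥ ε`. -/
theorem result (RH : RiemannHypothesis) (C : ℝ) :
    ∃ ε : ℝ, 0 < ε ∧ ∀ᶠ N : ℕ in atTop, ∀ (a : ℕ → ℝ) (b x₀ : ℝ),
      ∑ n ∈ Finset.Icc 1 N, |∑ j ∈ Finset.Ico 1 n, (a j - b) - x₀| ^ 3 ≤ C * N →
        ε * N ≤ ({n : ℕ | 1 ≤ n ∧ n ≤ N ∧ ε ≤ |d n - a n|}.ncard : ℝ) := by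
  obtain ⟨ε, hε, h⟩ := Pool.Agent.Y743.LR.lattice RH C
  refine ⟨ε, hε, ?_⟩
  filter_upwards [h] with N hN a b x₀ hx
  have h1 := hN (fun n => ∑ j ∈ Finset.Ico 1 n, (a j - b) - x₀) b hx
  have e : {n : ℕ | 1 ≤ n ∧ n ≤ N ∧ ε ≤ |LG.dlt n - b -
      ((∑ j ∈ Finset.Ico 1 (n + 1), (a j - b) - x₀) - (∑ j ∈ Finset.Ico 1 n, (a j - b) - x₀))|} =
      {n : ℕ | 1 ≤ n ∧ n ≤ N ∧ ε ≤ |d n - a n|} := by
    ext n
    simp only [Set.mem_ofPred_eq]
    refine and_congr_right fun h1n => and_congr_right fun _ => ?_
    have e1 : ∑ j ∈ Finset.Ico 1 (n + 1), (a j - b) =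
        ∑ j ∈ Finset.Ico 1 n, (a j - b) + (a n - b) := Finset.sum_Ico_succ_top h1n _
    have e2 : LG.dlt n = d n := by
      have e3 : SG.ord = γ := rfl
      unfold LG.dlt d
      rw [e3]
    rw [e1, e2]
    have e4 : d n - b - ((∑ j ∈ Finset.Ico 1 n, (a j - b) + (a n - b) - x₀) -
        (∑ j ∈ Finset.Ico 1 n, (a j - b) - x₀)) = d n - a n := by ring
    rw [e4]
  rw [e] at h1
  exact h1

end Pool.Agent.Results.MP_f0209c_nt.BalancedPatterns
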