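import Pool.Agent.Y763.AH.E

/-!
# The Alternative Hypothesis for almost all spacings is the extremal case of a lower bound

Assume the Riemann hypothesis. For real `R > 1` and `0 < κ < 1` let
`J(T) = ∫_κ^R (R - α) F(α, T) dα`. Then `J(T) ≥ j - o(1)` with the explicit constant
`j = ∫_κ^1 (R - α) α dα + (R - 1)² / 2 - 1 / 6`, and for a sequence of `T` (or any filter) `J(T)`
tends to `j` **if and only if** almost all the normalised spacings are near the positive multiples
of `1 / R`. For `R = 2` this characterises the Alternative Hypothesis for almost all spacings by a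
single integral of the form factor over `(κ, 2)`: any excess over the proved lower bound disproves
the Alternative Hypothesis, and only an excess can disprove it for a positive proportion of the
spacings.

Idea of the proof. The Fourier transform of the tent of support `[-R, R]` is `sinc²(π R x)`, which
is nonnegative and vanishes exactly at the nonzero multiples of `1 / R`. By Montgomery's theorem
`J(T)` differs from `j` asymptotically by the sum of `sinc²` over the pairs of different zeros. The
consecutive pairs give the lower bound for this sum. For the upper bound one needs that the spacings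
near the lattice have sums near the lattice, and that the clusters of the zeros are rare (uniform
bound for sums of consecutive gaps, starting files).
-/

set_option autoImplicit false

open Filter Topology
open Complex (I)

namespace Pool.Agent.Results.MP_f0209c_nt.ExtremalityOfAH

/-- the multiplicity of `s` as a zero of the Riemann zeta function (order of vanishing at `s`) -/
noncomputable def zmult (s : ℂ) : ℕ := analyticOrderNatAt riemannZeta s

/-- the nontrivial zeros of `ζ` with ordinate in `(0, T]` -/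
def zeros (T : ℝ) : Set ℂ :=
  {s : ℂ | riemannZeta s = 0 ∧ 0 < s.re ∧ s.re < 1 ∧ 0 < s.im ∧ s.im ≤ T}

/-- the number of the nontrivial zeros of `ζ` with ordinate in `(0, T]`, with multiplicity -/
noncomputable def N (T : ℝ) : ℕ := ∑ᶠ s ∈ zeros T, zmult s

/-- for `n ≥ 1`: the `n`-th positive ordinate `γ n` of a nontrivial zero of `ζ`, the ordinates being
listed in nondecreasing order and repeated according to multiplicity -/
noncomputable def γ (n : ℕ) : ℝ := sInf {t : ℝ | n ≤ N t}

/-- the normalised spacings `d_n = γ_{n+1} log γ_{n+1} / 2π - γ_n log γ_n / 2π` -/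
noncomputable def d (n : ℕ) : ℝ :=
  (γ (n + 1) * Real.log (γ (n + 1)) - γ n * Real.log (γ n)) / (2 * Real.pi)

/-- Montgomery's function `F(α, T)` (a real number, written as a complex one) -/
noncomputable def F (α T : ℝ) : ℂ :=
  (2 * Real.pi / (T * Real.log T) : ℝ) * ∑ᶠ s ∈ zeros T, ∑ᶠ s' ∈ zeros T,
    (zmult s : ℂ) * (zmult s' : ℂ) *
    ((T : ℂ) ^ (I * α * (s.im - s'.im)) * (4 / (4 + (s.im - s'.im) ^ 2)))

/-- the proportion, among the spacings `d_n` with `γ_n ≤ T`, of those whose distance from each of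
the numbers `k / R`, `k = 1, 2, 3, …`, is at least `ε` -/
noncomputable def away (R ε T : ℝ) : ℝ :=
  ({n : ℕ | 1 ≤ n ∧ γ n ≤ T ∧ ∀ k : ℕ, 1 ≤ k → ε ≤ |d n - k / R|}.ncard : ℝ) / N T

/-- the constant `R² / 2 - R / 2 - R κ² / 2 + κ³ / 3`; it is equal to
`∫_κ^1 (R - α) α dα + (R - 1)² / 2 - 1 / 6` -/
noncomputable def j (R κ : ℝ) : ℝ := R ^ 2 / 2 - R / 2 - R * κ ^ 2 / 2 + κ ^ 3 / 3

lemma NZ_eq (T : ℝ) : N T = SG.NZ T := rfl

lemma ord_eq (n : ℕ) : γ n = SG.ord n := rfl

lemma del_eq (n : ℕ) : d n = H177.Lat.del n := rfl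

lemma away_eq (R ε T : ℝ) :
    away R ε T = ((Pool.Agent.Y763.AH.BT R ε T).card : ℝ) / SG.NZ T := by
  classical
  unfold away
  congr 2
  rw [← Set.ncard_coe_finset]
  congr 1
  ext n
  unfold Pool.Agent.Y763.AH.BT Pool.Agent.Y763.AH.Bad
  rw [Finset.mem_coe, Finset.mem_filter, Finset.mem_Ioc]
  constructor
  · rintro ⟨h1, h2, h3⟩
    exact ⟨⟨h1, (SG.ord_le_iff h1 T).1 h2⟩, h3⟩
  · rintro ⟨⟨h1, h2⟩, h3⟩
    exact ⟨h1, (SG.ord_le_iff h1 T).2 h2, h3⟩

lemma F_eq {T : ℝ} (hT : 10 ≤ T) (α : ℝ) : (F α T).re = Pool.Agent.Y749.Rig.Fr T α := by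
  have h : F α T = Pool.Agent.Y749.Rig.P.F T α := by
    have hz : zeros T = Pool.Agent.Y744.G.zeros T := by
      ext s
      simp only [zeros, Pool.Agent.Y744.G.zeros, Set.mem_ofPred_eq]
      tauto
    unfold F Pool.Agent.Y749.Rig.P.F
    rw [hz]
    have hX : ((2 * Real.pi / (T * Real.log T) : ℝ) : ℂ) = ((Pool.Agent.Y744.G.X T : ℝ) : ℂ)⁻¹ := by
      rw [← Complex.ofReal_inv]
      congr 1
      unfold Pool.Agent.Y744.G.X
      rw [div_mul_eq_mul_div, inv_div]
    rw [hX]
    rfl
  rw [h, Pool.Agent.Y749.Rig.P.F_eq hT, Complex.ofReal_re]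

lemma J_eq {T : ℝ} (hT : 10 ≤ T) (R κ : ℝ) :
    ∫ α in κ..R, (R - α) * (F α T).re = Pool.Agent.Y763.AH.JJ R κ T := by
  unfold Pool.Agent.Y763.AH.JJ
  refine intervalIntegral.integral_congr fun α _ => ?_
  show (R - α) * (F α T).re = (R - α) * Pool.Agent.Y749.Rig.Fr T α
  rw [F_eq hT]

/-- **Theorem.** On the Riemann hypothesis, for all real `R > 1` and `0 < κ < 1`: for every `ε > 0`
one has `∫_κ^R (R - α) F(α, T) dα ≥ j(R, κ) - ε` for all large `T`; and for every filter `l` finer
than `T → ∞` (for instance a sequence of `T` tending to infinity) this integral tends to `j(R, κ)`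
along `l` if and only if, for every `ε > 0`, the proportion of the spacings `d_n`, `γ_n ≤ T`, with
distance at least `ε` from all the numbers `k / R`, `k ≥ 1`, tends to zero along `l`. -/
theorem result (RH : RiemannHypothesis) (R κ : ℝ) (hR : 1 < R) (hκ : 0 < κ) (hκ1 : κ < 1) :
    (∀ ε : ℝ, 0 < ε → ∀ᶠ T : ℝ in atTop, j R κ - ε ≤ ∫ α in κ..R, (R - α) * (F α T).re) ∧
    ∀ l : Filter ℝ, l ≤ atTop →
      (Tendsto (fun T => ∫ α in κ..R, (R - α) * (F α T).re) l (𝓝 (j R κ)) ↔
        ∀ ε : ℝ, 0 < ε → Tendsto (fun T => away R ε T) l (𝓝 0)) := by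
  constructor
  · intro ε hε
    filter_upwards [Pool.Agent.Y763.AH.lower RH hR.le hκ hκ1 hε, eventually_ge_atTop 10] with T h1 h2
    rw [J_eq h2]
    exact h1
  · intro l hl
    simp only [away_eq]
    rw [← Pool.Agent.Y763.AH.main RH hR.le hκ hκ1 hl]
    refine tendsto_congr' ?_
    filter_upwards [hl (eventually_ge_atTop 10)] with T h2
    exact J_eq h2 R κ

end Pool.Agent.Results.MP_f0209c_nt.ExtremalityOfAH
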