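import Pool.Agent.Y749.AH.Main2

/-!
# One point of the form factor, or distant pairs, decide about lattice spacings

Assume RH and let `s > 0`.  The following are equivalent (for `T → ∞` or along any sequence of
values of `T`): almost all normalised spacings `d_j` of the zeta zeros are near `s ℤ`; Montgomery's
function `F(α, T)` has mass at least `1` at the single point `α = 1 / s`; `F(α, T)` is weakly
periodic with period `1 / s`; in every fixed window almost all normalised differences of zeros are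
near `s ℤ`; there are arbitrarily long windows `[a, a + R]`, anywhere, in which the proportion of the
normalised differences away from some coset `b + s ℤ` is arbitrarily small.  Almost all spacings are
near `{s, 2s, 3s, ...}` if and only if moreover few spacings are small; for `s = 1/2` this is the
alternative hypothesis for almost all spacings.

Idea of the proof.  The pairs at a distance in a window around `c` are seen by a tent of width
`h = K / R` at the frequency `0`, multiplied by `cos 2πcα`; since the form factor has mass `1` at the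
origin and mass `O(h²)` in the rest of `(-h, h)`, this pairing is as large as the one with the tent
itself.  If almost all these differences are near `b + s ℤ` then the same holds for the
tent at `1 / s` (with a phase), and since `F ≥ 0` the mass at `1 / s` is at least about `1`.  Then
`1 - cos(2πx/s) = 2 sin(πx/s)²` has a small mean over the differences at bounded distance, and
clusters of zeros are rare.
-/

open Filter
open Complex (I)

namespace Pool.Agent.Results.MP_f0209c_nt.OnePointCriterion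

/-- multiplicity of `s` as a zero of the Riemann zeta function (order of vanishing at `s`) -/
noncomputable def zmult (s : ℂ) : ℕ := analyticOrderNatAt riemannZeta s

/-- the number of nontrivial zeros of `ζ` with ordinate in `(0, t]`, with multiplicity -/
noncomputable def NZ (t : ℝ) : ℕ :=
  ∑ᶠ s ∈ {s : ℂ | riemannZeta s = 0 ∧ 0 < s.re ∧ s.re < 1 ∧ 0 < s.im ∧ s.im ≤ t}, zmult s

/-- for `j ≥ 1`: the `j`-th positive ordinate `γ j` of a nontrivial zero of `ζ`, the ordinates being
listed in nondecreasing order and repeated according to multiplicity -/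
noncomputable def γ (j : ℕ) : ℝ := sInf {t : ℝ | j ≤ NZ t}

/-- the normalised spacings `d_j = γ_{j+1} log γ_{j+1} / 2π - γ_j log γ_j / 2π` -/
noncomputable def d (j : ℕ) : ℝ :=
  (γ (j + 1) * Real.log (γ (j + 1)) - γ j * Real.log (γ j)) / (2 * Real.pi)

/-- Montgomery's function `F(α, T)` (the sum is real) -/
noncomputable def F (α T : ℝ) : ℝ :=
  (2 * Real.pi / (T * Real.log T) * ∑ i ∈ Finset.Icc 1 (NZ T), ∑ j ∈ Finset.Icc 1 (NZ T),
    (T : ℂ) ^ (I * α * (γ i - γ j)) * (4 / (4 + (γ i - γ j) ^ 2)) : ℂ).re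

/-- the normalised differences `(γ_i - γ_j) log T / 2π` -/
noncomputable def x (T : ℝ) (i j : ℕ) : ℝ := (γ i - γ j) * Real.log T / (2 * Real.pi)

/-- the number of pairs `(i, j)`, `1 ≤ i, j ≤ N(T)`, whose normalised difference lies in
`[a, a + R]` and has distance at least `ε` to the coset `b + s ℤ` -/
noncomputable def W (T a R b s ε : ℝ) : ℕ :=
  {p : ℕ × ℕ | (1 ≤ p.1 ∧ p.1 ≤ NZ T) ∧ (1 ≤ p.2 ∧ p.2 ≤ NZ T) ∧
    a ≤ x T p.1 p.2 ∧ x T p.1 p.2 ≤ a + R ∧ ∀ k : ℤ, ε ≤ |x T p.1 p.2 - b - k * s|}.ncard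

/-- almost all spacings are near `s ℤ`, along the filter `l` of values of `T` -/
def Spacings (l : Filter ℝ) (s : ℝ) : Prop := ∀ ε η : ℝ, 0 < ε → 0 < η → ∀ᶠ T in l,
  ({j : ℕ | 1 ≤ j ∧ j ≤ NZ T ∧ ∀ k : ℤ, ε ≤ |d j - k * s|}.ncard : ℝ) ≤ η * NZ T

/-- almost all spacings are near `{s, 2s, 3s, ...}` -/
def PosSpacings (l : Filter ℝ) (s : ℝ) : Prop := ∀ ε η : ℝ, 0 < ε → 0 < η → ∀ᶠ T in l,
  ({j : ℕ | 1 ≤ j ∧ j ≤ NZ T ∧ ∀ k : ℕ, 1 ≤ k → ε ≤ |d j - k * s|}.ncard : ℝ) ≤ η * NZ T

/-- there are few small spacings -/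
def FewSmall (l : Filter ℝ) : Prop := ∀ η : ℝ, 0 < η → ∃ ε : ℝ, 0 < ε ∧ ∀ᶠ T in l,
  ({j : ℕ | 1 ≤ j ∧ j ≤ NZ T ∧ d j < ε}.ncard : ℝ) ≤ η * NZ T

/-- `F(α, T)` has mass at least `1` at the point `θ` -/
def Mass (l : Filter ℝ) (θ : ℝ) : Prop := ∀ δ η : ℝ, 0 < δ → 0 < η → ∀ᶠ T in l,
  1 - η ≤ ∫ α in (θ - δ)..(θ + δ), F α T

/-- `F(α, T)` is weakly periodic with period `θ` -/
def Periodic (l : Filter ℝ) (θ : ℝ) : Prop := ∀ φ : ℝ → ℝ, Continuous φ → HasCompactSupport φ →
  Tendsto (fun T => ∫ α, φ α * (F (α + θ) T - F α T)) l (nhds 0)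

/-- in every window almost all differences are near `s ℤ` -/
def AllWindows (l : Filter ℝ) (s : ℝ) : Prop := ∀ ε η R a : ℝ, 0 < ε → 0 < η → 0 < R →
  ∀ᶠ T in l, (W T a R 0 s ε : ℝ) ≤ η * NZ T

/-- in some long windows, located anywhere, the proportion of the differences that are away from
some coset `b + s ℤ` is small -/
def SomeWindows (l : Filter ℝ) (s : ℝ) : Prop := ∀ ε η R0 : ℝ, 0 < ε → 0 < η → 0 < R0 →
  ∃ R : ℝ, R0 ≤ R ∧ ∃ a b : ℝ, ∀ᶠ T in l, (W T a R b s ε : ℝ) ≤ η * R * NZ T

/-- **Lattice spacings, the mass of the form factor at one point, and distant pairs.** -/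
theorem result (hRH : RiemannHypothesis) (s : ℝ) (hs : 0 < s) (l : Filter ℝ) (hl : l ≤ atTop) :
    (Spacings l s ↔ Mass l (1 / s)) ∧ (Spacings l s ↔ Periodic l (1 / s)) ∧
    (Spacings l s ↔ AllWindows l s) ∧ (Spacings l s ↔ SomeWindows l s) ∧
    (PosSpacings l s ↔ Mass l (1 / s) ∧ FewSmall l) := by
  obtain ⟨h1, h2, h3, h4⟩ := Pool.Agent.Y749.AH.M.mainB hRH hl hs
  exact ⟨h1, h2, h3, h4, Pool.Agent.Y749.AH.M.pos_iff hRH hl hs⟩

end Pool.Agent.Results.MP_f0209c_nt.OnePointCriterion
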